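import Pool.Agent.H63.PU.Targets

/-!
# Module CONTRA (MP_6ed97a_co)
-/

namespace Pool.Agent.H50.PU

open Pool.Agent.H63.PU

lemma tok_last_hi {n : ℕ} {val : ℕ → ℕ} {k : Kd} {lo hi : ℕ} {l : List ℕ}
    (h : Tok n val k lo hi l) (hk : notM k = true) (hh : hi ≠ 0) :
    l.getLast? = some (val hi) := by
  cases k with
  | s =>
    obtain ⟨v, rfl, h1, h2⟩ := h
    simp [h2 hh]
  | p => exact h.2.2 hh
  | m => exact absurd hk (by decide)

lemma tok_head_lo {n : ℕ} {val : ℕ → ℕ} {k : Kd} {lo hi : ℕ} {l : List ℕ}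
    (h : Tok n val k lo hi l) (hk : notM k = true) (hh : lo ≠ 0) :
    l.head? = some (nx n (val lo)) := by
  cases k with
  | s =>
    obtain ⟨v, rfl, h1, h2⟩ := h
    simp [h1 hh]
  | p => exact h.2.1 hh
  | m => exact absurd hk (by decide)

lemma tok_last_lo {n : ℕ} {val : ℕ → ℕ} {k : Kd} {lo hi : ℕ} {l : List ℕ}
    (h : Tok n val k lo hi l) (hk : notP k = true) (hh : lo ≠ 0) :
    l.getLast? = some (nx n (val lo)) := by
  cases k with
  | s =>
    obtain ⟨v, rfl, h1, h2⟩ := h
    simp [h1 hh]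
  | m => exact h.2.1 hh
  | p => exact absurd hk (by decide)

lemma tok_head_hi {n : ℕ} {val : ℕ → ℕ} {k : Kd} {lo hi : ℕ} {l : List ℕ}
    (h : Tok n val k lo hi l) (hk : notP k = true) (hh : hi ≠ 0) :
    l.head? = some (val hi) := by
  cases k with
  | s =>
    obtain ⟨v, rfl, h1, h2⟩ := h
    simp [h2 hh]
  | m => exact h.2.2 hh
  | p => exact absurd hk (by decide)

lemma contra_decomp (W : Wts) : ∀ is : List Item, contra W is = true →
    ∃ P x y Q, is = P ++ x :: y :: Q ∧ (join W x y).isSome = true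
  | [], h => by simp [contra] at h
  | [x], h => by simp [contra] at h
  | x :: y :: l, h => by
    rw [contra, Bool.or_eq_true] at h
    rcases h with h | h
    · exact ⟨[], x, y, l, rfl, h⟩
    · obtain ⟨P, x', y', Q, e, h'⟩ := contra_decomp W (y :: l) h
      exact ⟨x :: P, x', y', Q, by rw [e]; rfl, h'⟩

lemma join_cases {W : Wts} {x y : Item} (h : (join W x y).isSome = true) :
    ∃ ku lu hu kv lv hv, x = .tok ku lu hu ∧ y = .tok kv lv hv ∧
      ((notM ku = true ∧ notM kv = true ∧ hu ≠ 0 ∧ hu = lv) ∨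
        (notP ku = true ∧ notP kv = true ∧ lu ≠ 0 ∧ lu = hv)) := by
  cases x with
  | gap => simp [join] at h
  | tok ku lu hu =>
    cases y with
    | gap => simp [join] at h
    | tok kv lv hv =>
      refine ⟨ku, lu, hu, kv, lv, hv, rfl, rfl, ?_⟩
      simp only [join] at h
      by_cases h1 : (notM ku && (notM kv && (!(Nat.beq hu 0) && Nat.beq hu lv))) = true
      · left
        simp only [Bool.and_eq_true, Bool.not_eq_true'] at h1
        refine ⟨h1.1, h1.2.1, ?_, Nat.eq_of_beq_eq_true h1.2.2.2⟩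
        intro h0
        have := h1.2.2.1
        rw [h0] at this
        simp at this
      · by_cases h2 : (notP ku && (notP kv && (!(Nat.beq lu 0) && Nat.beq lu hv))) = true
        · right
          simp only [Bool.and_eq_true, Bool.not_eq_true'] at h2
          refine ⟨h2.1, h2.2.1, ?_, Nat.eq_of_beq_eq_true h2.2.2.2⟩
          intro h0
          have := h2.2.2.1
          rw [h0] at this
          simp at this
        · rw [Bool.not_eq_true] at h1 h2
          rw [h1, h2] at h
          simp at h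

theorem contraM (hP : T_PAIR) : T_CONTRA := by
  intro W n a as hn ha hc hR
  obtain ⟨val, R, hRas, hW⟩ := hR
  obtain ⟨P, x, y, Q, e, hj⟩ := contra_decomp W as hc
  rw [e] at hRas
  obtain ⟨R1, R2, rfl, h1, h2⟩ := List.map_eq_append_iff.mp hRas
  obtain ⟨u, R3, rfl, hu, h3⟩ := List.map_eq_cons_iff.mp h2
  obtain ⟨v, R4, rfl, hv, h4⟩ := List.map_eq_cons_iff.mp h3
  obtain ⟨ku, lu, hu', kv, lv, hv', rfl, rfl, hcase⟩ := join_cases hj
  have hnd : a.Nodup := ha.nodup_iff.mpr (List.nodup_range' (step := 1))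
  have hflat := hW.flat
  rw [List.map_append, List.map_cons, List.map_cons, List.flatten_append, List.flatten_cons,
    List.flatten_cons] at hflat
  have hinf : u.2 ++ v.2 <:+: a := by
    rw [← hflat]
    exact ⟨(R1.map Prod.snd).flatten, (R4.map Prod.snd).flatten, by simp⟩
  have hndu : (u.2 ++ v.2).Nodup := hinf.sublist.nodup hnd
  have hdisj := (List.nodup_append.mp hndu).2.2
  have hTu : Tok n val ku lu hu' u.2 := by
    have := hW.item u (by simp)
    rw [hu] at this
    exact this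
  have hTv : Tok n val kv lv hv' v.2 := by
    have := hW.item v (by simp)
    rw [hv] at this
    exact this
  have hcl := hW.closed u (by simp)
  rcases hcase with ⟨c1, c2, c3, c4⟩ | ⟨c1, c2, c3, c4⟩
  · have e1 := tok_last_hi hTu c1 c3
    have e2 := tok_head_lo hTv c2 (c4 ▸ c3)
    rw [← c4] at e2
    have hE : Edge n a (val hu') :=
      Or.inl ((((hP.1 _ _ u.2 v.2).mpr (Or.inr (Or.inr ⟨e1, e2⟩)))).trans hinf)
    have m1 : val hu' ∈ u.2 := List.mem_of_getLast? e1
    have m2 : nx n (val hu') ∈ v.2 := List.mem_of_head? e2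
    exact hdisj _ ((hcl _ hE).mp m1) _ m2 rfl
  · have e1 := tok_last_lo hTu c1 c3
    have e2 := tok_head_hi hTv c2 (c4 ▸ c3)
    rw [← c4] at e2
    have hE : Edge n a (val lu) :=
      Or.inr ((((hP.1 _ _ u.2 v.2).mpr (Or.inr (Or.inr ⟨e1, e2⟩)))).trans hinf)
    have m1 : nx n (val lu) ∈ u.2 := List.mem_of_getLast? e1
    have m2 : val lu ∈ v.2 := List.mem_of_head? e2
    exact hdisj _ ((hcl _ hE).mpr m1) _ m2 rfl

end Pool.Agent.H50.PU
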