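import Pool.Agent.H63.PU.Targets

/-!
# Module CYC (MP_6ed97a_co)
-/

namespace Pool.Agent.H50.PU.Cyc

open Pool.Agent.H63.PU

lemma chain_next {n v : ℕ} : ∀ l : List ℕ, l.IsChain (fun a b => b = nx n a) → v ∈ l →
    l.getLast? = some v ∨ [v, nx n v] <:+: l
  | [], _, h => by simp at h
  | [x], _, h => by
    left
    simp at h
    simp [h]
  | x :: y :: l, hc, h => by
    rw [List.isChain_cons_cons] at hc
    rcases List.mem_cons.mp h with h | h
    · right
      rw [h, ← hc.1]
      exact ⟨[], l, by simp⟩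
    · rcases chain_next (y :: l) hc.2 h with h' | h'
      · left
        rw [List.getLast?_cons_cons]
        exact h'
      · right
        exact List.infix_cons h'

lemma tok_next {n : ℕ} {val : ℕ → ℕ} {k : Kd} {lo hi : ℕ} {l : List ℕ}
    (h : Tok n val k lo hi l) (hh : hi ≠ 0) {v : ℕ} (hv : v ∈ l) :
    v = val hi ∨ (Edge n l v ∧ nx n v ∈ l) := by
  cases k with
  | s =>
    obtain ⟨v', rfl, h1, h2⟩ := h
    left
    simp at hv
    rw [hv, h2 hh]
  | p =>
    rcases chain_next l h.1.1 hv with h' | h'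
    · left
      rw [h.2.2 hh] at h'
      exact (Option.some.inj h').symm
    · right
      exact ⟨Or.inl h', h'.subset (by simp)⟩
  | m =>
    rcases chain_next l.reverse h.1.1 (List.mem_reverse.mpr hv) with h' | h'
    · left
      rw [List.getLast?_reverse, h.2.2 hh] at h'
      exact (Option.some.inj h').symm
    · right
      have h2 : [nx n v, v] <:+: l := by
        have := List.reverse_infix.mpr h'
        rw [List.reverse_reverse] at this
        exact this
      exact ⟨Or.inr h2, h2.subset (by simp)⟩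

lemma tok_lo_mem {n : ℕ} {val : ℕ → ℕ} {k : Kd} {lo hi : ℕ} {l : List ℕ}
    (h : Tok n val k lo hi l) (hh : lo ≠ 0) : nx n (val lo) ∈ l := by
  cases k with
  | s =>
    obtain ⟨v', rfl, h1, h2⟩ := h
    simp [h1 hh]
  | p => exact List.mem_of_head? (h.2.1 hh)
  | m => exact List.mem_of_getLast? (h.2.1 hh)

lemma tok_ne {n : ℕ} {val : ℕ → ℕ} {k : Kd} {lo hi : ℕ} {l : List ℕ}
    (h : Tok n val k lo hi l) : ∃ v, v ∈ l := by
  cases k with
  | s =>
    obtain ⟨v', rfl, h1, h2⟩ := h
    exact ⟨v', by simp⟩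
  | p =>
    have := h.1.2
    exact List.exists_mem_of_length_pos (by omega)
  | m =>
    have := h.1.2
    rw [List.length_reverse] at this
    exact List.exists_mem_of_length_pos (by omega)

lemma cyc_spec {S : List ℕ} {is : List Item} (h : cyc S is = true) :
    S ≠ [] ∧ ∀ i ∈ S, ∃ k lo hi, is[i]? = some (.tok k lo hi) ∧ hi ≠ 0 ∧
      ∃ j ∈ S, ∃ k' hi', is[j]? = some (.tok k' hi hi') := by
  unfold cyc at h
  rw [Bool.and_eq_true] at h
  refine ⟨?_, ?_⟩
  · intro h0
    rw [h0] at h
    simp at h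
  · intro i hi
    have h1 := List.all_eq_true.mp h.2 i hi
    split at h1
    · rename_i k lo hi' e
      rw [Bool.and_eq_true] at h1
      refine ⟨k, lo, hi', e, ?_, ?_⟩
      · intro h0
        rw [h0] at h1
        simp at h1
      · obtain ⟨j, hj, h2⟩ := List.any_eq_true.mp h1.2
        refine ⟨j, hj, ?_⟩
        split at h2
        · rename_i k' lo' hi'' e'
          have := Nat.eq_of_beq_eq_true h2
          subst this
          exact ⟨k', hi'', e'⟩
        · simp at h2
    · simp at h1

lemma nx_closed {n : ℕ} (V : ℕ → Prop) (hV : ∀ v, V v → 1 ≤ v ∧ v ≤ n)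
    (hc : ∀ v, V v → V (nx n v)) {v0 : ℕ} (h0 : V v0) : ∀ v, 1 ≤ v → v ≤ n → V v := by
  have up : ∀ w, V w → ∀ k, w + k ≤ n → V (w + k) := by
    intro w hw k
    induction k with
    | zero => intro _; exact hw
    | succ k ih =>
      intro hk
      have h1 := hc _ (ih (by omega))
      have h2 : nx n (w + k) = w + (k + 1) := by
        unfold nx
        split_ifs <;> omega
      rw [h2] at h1
      exact h1
  have hb := hV v0 h0
  have hn : V n := by
    have := up v0 h0 (n - v0) (by omega)
    rw [show v0 + (n - v0) = n by omega] at this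
    exact this
  have h1 : V 1 := by
    have := hc n hn
    rw [show nx n n = 1 by simp [nx]] at this
    exact this
  intro v hv1 hv2
  have := up 1 h1 (v - 1) (by omega)
  rw [show 1 + (v - 1) = v by omega] at this
  exact this

theorem cycM : T_CYC := by
  classical
  intro n a S as hn ha hc hR
  obtain ⟨val, R, hRas, hW⟩ := hR
  obtain ⟨hS, hs⟩ := cyc_spec hc
  have key : ∀ (i : ℕ) (k : Kd) (lo hi : ℕ), as[i]? = some (Item.tok k lo hi) →
      ∃ x, R[i]? = some x ∧
      x ∈ R ∧ Tok n val k lo hi x.2 := by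
    intro i k lo hi e
    rw [← hRas, List.getElem?_map] at e
    obtain ⟨x, hx, hx2⟩ := Option.map_eq_some_iff.mp e
    refine ⟨x, hx, List.mem_of_getElem? hx, ?_⟩
    have := hW.item x (List.mem_of_getElem? hx)
    rw [hx2] at this
    exact this
  have inf : ∀ x ∈ R, x.2 <:+: a := by
    intro x hx
    rw [← hW.flat]
    exact List.infix_of_mem_flatten (List.mem_map.mpr ⟨x, hx, rfl⟩)
  let V : ℕ → Prop := fun v => ∃ i ∈ S, ∃ x, R[i]? = some x ∧ v ∈ x.2
  have hVr : ∀ v, V v → 1 ≤ v ∧ v ≤ n := by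
    rintro v ⟨i, hi, x, hx, hv⟩
    have h1 : v ∈ a := (inf x (List.mem_of_getElem? hx)).subset hv
    have h2 := ha.mem_iff.mp h1
    rw [List.mem_range'_1] at h2
    omega
  have main : ∀ v, V v → (∃ (i : ℕ) (k : Kd) (lo hi : ℕ), as[i]? = some (Item.tok k lo hi) ∧
      v = val hi ∧ V (nx n v)) ∨ (Edge n a v ∧ V (nx n v)) := by
    rintro v ⟨i, hi, x, hx, hv⟩
    obtain ⟨k, lo, h, e, hh, j, hj, k', h', e'⟩ := hs i hi
    obtain ⟨x', hx', hx'R, hT⟩ := key i k lo h e
    have hxx : x' = x := Option.some.inj (hx'.symm.trans hx)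
    subst hxx
    rcases tok_next hT hh hv with h1 | h1
    · left
      refine ⟨i, k, lo, h, e, h1, ?_⟩
      obtain ⟨y, hy, hyR, hT'⟩ := key j k' h h' e'
      refine ⟨j, hj, y, hy, ?_⟩
      rw [h1]
      exact tok_lo_mem hT' hh
    · right
      refine ⟨?_, i, hi, x', hx, h1.2⟩
      rcases h1.1 with h2 | h2
      · exact Or.inl (h2.trans (inf x' hx'R))
      · exact Or.inr (h2.trans (inf x' hx'R))
  have hVc : ∀ v, V v → V (nx n v) := by
    intro v hv
    rcases main v hv with ⟨i, k, lo, h, e, h1, h2⟩ | h2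
    · exact h2
    · exact h2.2
  obtain ⟨i0, hi0⟩ := List.exists_mem_of_ne_nil S hS
  obtain ⟨k, lo, h, e, hh, j, hj, k', h', e'⟩ := hs i0 hi0
  obtain ⟨x, hx, hxR, hT⟩ := key i0 k lo h e
  obtain ⟨v0, hv0⟩ := tok_ne hT
  have hall := nx_closed V hVr hVc (v0 := v0) ⟨i0, hi0, x, hx, hv0⟩
  let g : ℕ → ℕ := fun i => match as[i]? with
    | some (.tok _ _ hi) => val hi
    | _ => 0
  have hsub : missing n (Edge n a) ⊆ (Finset.range as.length).image g := by
    intro v hv
    unfold missing at hv
    rw [Finset.mem_filter, Finset.mem_Icc] at hv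
    rcases main v (hall v hv.1.1 hv.1.2) with ⟨i, k, lo, h, e, h1, h2⟩ | h2
    · rw [Finset.mem_image]
      refine ⟨i, ?_, ?_⟩
      · rw [Finset.mem_range]
        exact (List.getElem?_eq_some_iff.mp e).1
      · simp only [g, e]
        exact h1.symm
    · exact absurd h2.1 hv.2
  calc (missing n (Edge n a)).card ≤ ((Finset.range as.length).image g).card :=
        Finset.card_le_card hsub
    _ ≤ (Finset.range as.length).card := Finset.card_image_le
    _ = as.length := Finset.card_range _

end Pool.Agent.H50.PU.Cyc
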