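import Pool.Agent.H63.PU.Targets

/-!
# Module EMB (MP_6ed97a_co)
-/

namespace Pool.Agent.H50.PU.Emb

open Pool.Agent.H63.PU

lemma okL_spec {m : List ℕ} {a b : ℕ} (h : okL m a b = true) (ha : a ≠ 0) :
    b ≠ 0 ∧ m.getD a 0 = b := by
  unfold okL at h
  rw [Bool.or_eq_true] at h
  rcases h with h | h
  · exact absurd (Nat.eq_of_beq_eq_true h) ha
  · rw [Bool.and_eq_true] at h
    refine ⟨?_, Nat.eq_of_beq_eq_true h.2⟩
    intro h0
    rw [h0] at h
    simp at h

lemma kd_beq {k k' : Kd} (h : Kd.beq k k' = true) : k = k' := by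
  cases k <;> cases k' <;> first | rfl | exact absurd h (by decide)

lemma tok_emb {n : ℕ} {val : ℕ → ℕ} {m : List ℕ} {k : Kd} {lo hi lo' hi' : ℕ} {l : List ℕ}
    (h : Tok n val k lo' hi' l) (h1 : okL m lo lo' = true) (h2 : okL m hi hi' = true) :
    Tok n (fun e => val (m.getD e 0)) k lo hi l := by
  cases k with
  | s =>
    obtain ⟨v, hv, a1, a2⟩ := h
    refine ⟨v, hv, fun hh => ?_, fun hh => ?_⟩
    · obtain ⟨b1, b2⟩ := okL_spec h1 hh
      rw [a1 b1, ← b2]
    · obtain ⟨b1, b2⟩ := okL_spec h2 hh
      rw [a2 b1, ← b2]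
  | p =>
    obtain ⟨hv, a1, a2⟩ := h
    refine ⟨hv, fun hh => ?_, fun hh => ?_⟩
    · obtain ⟨b1, b2⟩ := okL_spec h1 hh
      rw [a1 b1, ← b2]
    · obtain ⟨b1, b2⟩ := okL_spec h2 hh
      rw [a2 b1, ← b2]
  | m =>
    obtain ⟨hv, a1, a2⟩ := h
    refine ⟨hv, fun hh => ?_, fun hh => ?_⟩
    · obtain ⟨b1, b2⟩ := okL_spec h1 hh
      rw [a1 b1, ← b2]
    · obtain ⟨b1, b2⟩ := okL_spec h2 hh
      rw [a2 b1, ← b2]

lemma closed_flatten {n : ℕ} {a : List ℕ} {L : List (List ℕ)} (h : ∀ l ∈ L, Closed n a l) :
    Closed n a L.flatten := by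
  intro v hv
  constructor
  · intro hm
    obtain ⟨l, hl, hm'⟩ := List.mem_flatten.mp hm
    exact List.mem_flatten.mpr ⟨l, hl, (h l hl v hv).mp hm'⟩
  · intro hm
    obtain ⟨l, hl, hm'⟩ := List.mem_flatten.mp hm
    exact List.mem_flatten.mpr ⟨l, hl, (h l hl v hv).mpr hm'⟩

lemma main (n : ℕ) (a m : List ℕ) (val : ℕ → ℕ) : ∀ (ps : List Item) (sk : List ℕ)
    (as : List Item) (R : List (Item × List ℕ)), emb m sk ps as = true → R.map Prod.fst = as →
    (∀ x ∈ R, Closed n a x.2) → (∀ x ∈ R, ItemR n val x.1 x.2) →
    ∃ R' : List (Item × List ℕ), R'.map Prod.fst = ps ∧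
      (R'.map Prod.snd).flatten = (R.map Prod.snd).flatten ∧
      (∀ x ∈ R', Closed n a x.2) ∧ (∀ x ∈ R', ItemR n (fun e => val (m.getD e 0)) x.1 x.2) := by
  intro ps
  induction ps with
  | nil =>
    intro sk as R he hR hc hi
    cases as with
    | nil =>
      have : R = [] := by simpa using hR
      subst this
      exact ⟨[], rfl, rfl, by simp, by simp⟩
    | cons x l => simp [emb] at he
  | cons p ps ih =>
    intro sk as R he hR hc hi
    cases p with
    | gap =>
      cases sk with
      | nil => simp [emb] at he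
      | cons s sk =>
        rw [emb, Bool.and_eq_true] at he
        obtain ⟨R', h1, h2, h3, h4⟩ := ih sk (as.drop s) (R.drop s) he.2
          (by rw [List.map_drop, hR]) (fun x hx => hc x (List.mem_of_mem_drop hx))
          (fun x hx => hi x (List.mem_of_mem_drop hx))
        refine ⟨(.gap, ((R.take s).map Prod.snd).flatten) :: R', ?_, ?_, ?_, ?_⟩
        · rw [List.map_cons, h1]
        · rw [List.map_cons, List.flatten_cons, h2, ← List.flatten_append, ← List.map_append,
            List.take_append_drop]
        · intro x hx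
          rcases List.mem_cons.mp hx with rfl | hx
          · refine closed_flatten ?_
            intro l hl
            obtain ⟨y, hy, rfl⟩ := List.mem_map.mp hl
            exact hc y (List.mem_of_mem_take hy)
          · exact h3 x hx
        · intro x hx
          rcases List.mem_cons.mp hx with rfl | hx
          · trivial
          · exact h4 x hx
    | tok k lo hi' =>
      cases as with
      | nil => simp [emb] at he
      | cons q as =>
        cases q with
        | gap => simp [emb] at he
        | tok k' lo' hi'' =>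
          rw [emb, Bool.and_eq_true, Bool.and_eq_true, Bool.and_eq_true] at he
          obtain ⟨e1, e2, e3, e4⟩ := he
          have hk := kd_beq e1
          subst hk
          obtain ⟨x, R2, rfl, hx, hR2⟩ := List.map_eq_cons_iff.mp hR
          obtain ⟨R', h1, h2, h3, h4⟩ := ih sk as R2 e4 hR2
            (fun y hy => hc y (List.mem_cons_of_mem _ hy))
            (fun y hy => hi y (List.mem_cons_of_mem _ hy))
          refine ⟨(.tok k lo hi', x.2) :: R', ?_, ?_, ?_, ?_⟩
          · rw [List.map_cons, h1]
          · rw [List.map_cons, List.flatten_cons, h2, List.map_cons, List.flatten_cons]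
          · intro y hy
            rcases List.mem_cons.mp hy with rfl | hy
            · exact hc x (by simp)
            · exact h3 y hy
          · intro y hy
            rcases List.mem_cons.mp hy with rfl | hy
            · have h5 := hi x (by simp)
              rw [hx] at h5
              exact tok_emb h5 e2 e3
            · exact h4 y hy

theorem embM : T_EMB := by
  intro n a m sk ps as he hR
  obtain ⟨val, R, hRas, hW⟩ := hR
  obtain ⟨R', h1, h2, h3, h4⟩ := main n a m val ps sk as R he hRas hW.closed hW.item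
  exact ⟨fun e => val (m.getD e 0), R', h1, fun e => hW.val1 _, h2.trans hW.flat, h3, h4⟩

end Pool.Agent.H50.PU.Emb
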