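import Pool.Agent.H63.PU.Targets

/-!
# Modules PAIR, NX (MP_6ed97a_co)
-/

namespace Pool.Agent.H50.PU

open Pool.Agent.H63.PU

lemma pair_append (a b : ℕ) : ∀ l₁ l₂ : List ℕ, [a, b] <:+: l₁ ++ l₂ ↔
    [a, b] <:+: l₁ ∨ [a, b] <:+: l₂ ∨ (l₁.getLast? = some a ∧ l₂.head? = some b)
  | [], l₂ => by simp
  | [x], l₂ => by
    rw [List.singleton_append, List.infix_cons_iff, List.infix_cons_iff]
    have h1 : [a, b] <+: x :: l₂ ↔ x = a ∧ l₂.head? = some b := by
      cases l₂ with
      | nil => simp
      | cons y l => simp [List.cons_prefix_cons, eq_comm]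
    rw [h1]
    simp
    tauto
  | x :: y :: l, l₂ => by
    have ih := pair_append a b (y :: l) l₂
    rw [List.cons_append, List.infix_cons_iff, ih, List.infix_cons_iff (l₂ := y :: l)]
    have h1 : [a, b] <+: x :: (y :: l ++ l₂) ↔ [a, b] <+: x :: y :: l := by
      simp [List.cons_prefix_cons]
    rw [h1, List.getLast?_cons_cons]
    tauto

theorem pair : T_PAIR := by
  refine ⟨pair_append, fun a b l => ?_⟩
  have h : [b, a] = [a, b].reverse := rfl
  rw [h, ← List.reverse_infix, List.reverse_reverse]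

theorem nxm : T_NX := by
  refine ⟨?_, ?_, ?_, ?_, ?_⟩
  · intro n v h1 h2
    unfold nx
    split_ifs <;> omega
  · intro n u v h1 h2 h3 h4 h
    unfold nx at h
    split_ifs at h <;> omega
  · intro n v h1 h2
    by_cases h : v = 1
    · exact ⟨n, by omega, le_rfl, by simp [nx, h]⟩
    · refine ⟨v - 1, by omega, by omega, ?_⟩
      unfold nx
      split_ifs <;> omega
  · intro n v h0 h1 h2
    unfold nx
    split_ifs <;> omega
  · intro n v h0 h1 h2
    unfold nx
    split_ifs <;> omega

end Pool.Agent.H50.PU
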